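import Pool.Agent.H51.MFL.S
import Pool.Agent.H50.MFQ.SYA

/-!
# Board mfl: ASL
-/

set_option autoImplicit false

open Module MvPolynomial

namespace Pool.MFL

open Pool.MFQ Pool.MFM

section

variable {L : Type} [LieRing L] [LieAlgebra ℂ L] {s q : ℕ} {b : Basis (Fin s ⊕ Fin q) ℂ L}
  {R : ℕ → ℕ → MvPolynomial (Fin s ⊕ Fin q) ℂ → UniversalEnvelopingAlgebra ℂ L → Prop}

theorem asl_uniq (H : RFacts b R) {K k : ℕ} {g : MvPolynomial (Fin s ⊕ Fin q) ℂ}
    {u u' : UniversalEnvelopingAlgebra ℂ L} (h : R K k g u) (h' : R K k g u') : u = u' := by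
  have h1 := H.add K k _ _ _ _ h (H.smul K k (-1) _ _ h')
  have h2 : g + (-1 : ℂ) • g = 0 := by
    rw [neg_one_smul, add_neg_cancel]
  rw [h2] at h1
  have h3 := H.zero K k _ h1
  rw [neg_one_smul, ← sub_eq_add_neg] at h3
  exact sub_eq_zero.1 h3

/-- The lift does not depend on the level. -/
theorem asl_lift (H : RFacts b R) {k : ℕ} {g : MvPolynomial (Fin s ⊕ Fin q) ℂ}
    (h : ∀ K, k ≤ K → ∃ u, R K k g u) : ∃ u, ∀ K, k ≤ K → R K k g u := by
  obtain ⟨u, hu⟩ := h k le_rfl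
  refine ⟨u, fun K hK => ?_⟩
  induction K, hK using Nat.le_induction with
  | base => exact hu
  | succ K hK ih =>
    obtain ⟨u', hu'⟩ := h (K + 1) (by omega)
    rw [asl_uniq H ih (H.mono K k g u' hK hu')]
    exact hu'

/-- The lifts of the homogeneous elements of degree `k` of `A`. -/
def aslX (H : RFacts b R) (A : Subalgebra ℂ (MvPolynomial (Fin s ⊕ Fin q) ℂ)) (k : ℕ) :
    Submodule ℂ (UniversalEnvelopingAlgebra ℂ L) where
  carrier := {u | ∃ g, g ∈ A ∧ g.IsHomogeneous k ∧ ∀ K, k ≤ K → R K k g u}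
  zero_mem' := ⟨0, A.zero_mem, isHomogeneous_zero _ _ _, fun K _ => H.zero0 K k⟩
  add_mem' := by
    rintro u u' ⟨g, h1, h2, h3⟩ ⟨g', h1', h2', h3'⟩
    exact ⟨g + g', A.add_mem h1 h1', h2.add h2', fun K hK => H.add K k _ _ _ _ (h3 K hK)
      (h3' K hK)⟩
  smul_mem' := by
    rintro c u ⟨g, h1, h2, h3⟩
    refine ⟨c • g, A.smul_mem h1 c, ?_, fun K hK => H.smul K k c _ _ (h3 K hK)⟩
    exact (homogeneousSubmodule (Fin s ⊕ Fin q) ℂ k).smul_mem c h2

theorem mem_aslX (H : RFacts b R) (A : Subalgebra ℂ (MvPolynomial (Fin s ⊕ Fin q) ℂ)) (k : ℕ)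
    (u : UniversalEnvelopingAlgebra ℂ L) :
    u ∈ aslX H A k ↔ ∃ g, g ∈ A ∧ g.IsHomogeneous k ∧ ∀ K, k ≤ K → R K k g u := Iff.rfl

theorem aslX_mul (H : RFacts b R) (A : Subalgebra ℂ (MvPolynomial (Fin s ⊕ Fin q) ℂ)) {k l : ℕ}
    {u v : UniversalEnvelopingAlgebra ℂ L} (hu : u ∈ aslX H A k) (hv : v ∈ aslX H A l) :
    u * v ∈ aslX H A (k + l) := by
  obtain ⟨g, h1, h2, h3⟩ := hu
  obtain ⟨g', h1', h2', h3'⟩ := hv
  exact ⟨g * g', A.mul_mem h1 h1', h2.mul h2', fun K hK =>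
    H.mul K k l _ _ _ _ (h3 K (by omega)) (h3' K (by omega))⟩

theorem aslX_comm (H : RFacts b R) (A : Subalgebra ℂ (MvPolynomial (Fin s ⊕ Fin q) ℂ)) {k l : ℕ}
    {u v : UniversalEnvelopingAlgebra ℂ L} (hu : u ∈ aslX H A k) (hv : v ∈ aslX H A l) :
    u * v = v * u := by
  obtain ⟨g, h1, h2, h3⟩ := hu
  obtain ⟨g', h1', h2', h3'⟩ := hv
  exact H.comm (max k l) k l _ _ _ _ (h3 _ (le_max_left _ _)) (h3' _ (le_max_right _ _))

/-- The lifted algebra. -/
def aslA (H : RFacts b R) (A : Subalgebra ℂ (MvPolynomial (Fin s ⊕ Fin q) ℂ)) :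
    Subalgebra ℂ (UniversalEnvelopingAlgebra ℂ L) where
  carrier := (⨆ k, aslX H A k : Submodule ℂ (UniversalEnvelopingAlgebra ℂ L))
  mul_mem' := by
    intro u v hu hv
    change u ∈ (⨆ k, aslX H A k : Submodule ℂ (UniversalEnvelopingAlgebra ℂ L)) at hu
    change v ∈ (⨆ k, aslX H A k : Submodule ℂ (UniversalEnvelopingAlgebra ℂ L)) at hv
    change u * v ∈ (⨆ k, aslX H A k : Submodule ℂ (UniversalEnvelopingAlgebra ℂ L))
    induction hu using Submodule.iSup_induction' with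
    | mem k x hx =>
      induction hv using Submodule.iSup_induction' with
      | mem l y hy =>
        exact Submodule.mem_iSup_of_mem (k + l) (aslX_mul H A hx hy)
      | zero =>
        rw [mul_zero]
        exact Submodule.zero_mem _
      | add y z _ _ hy hz =>
        rw [mul_add]
        exact Submodule.add_mem _ hy hz
    | zero =>
      rw [zero_mul]
      exact Submodule.zero_mem _
    | add y z _ _ hy hz =>
      rw [add_mul]
      exact Submodule.add_mem _ hy hz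
  add_mem' := by
    intro u v hu hv
    exact Submodule.add_mem _ hu hv
  algebraMap_mem' := by
    intro c
    rw [Algebra.algebraMap_eq_smul_one]
    refine Submodule.smul_mem _ c (Submodule.mem_iSup_of_mem 0 ?_)
    exact ⟨1, A.one_mem, isHomogeneous_one _ _, fun K _ => H.one K⟩

theorem mem_aslA (H : RFacts b R) (A : Subalgebra ℂ (MvPolynomial (Fin s ⊕ Fin q) ℂ))
    (u : UniversalEnvelopingAlgebra ℂ L) :
    u ∈ aslA H A ↔ u ∈ (⨆ k, aslX H A k : Submodule ℂ (UniversalEnvelopingAlgebra ℂ L)) :=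
  Iff.rfl

theorem aslA_comm (H : RFacts b R) (A : Subalgebra ℂ (MvPolynomial (Fin s ⊕ Fin q) ℂ))
    {u v : UniversalEnvelopingAlgebra ℂ L} (hu : u ∈ aslA H A) (hv : v ∈ aslA H A) :
    u * v = v * u := by
  rw [mem_aslA] at hu hv
  induction hu using Submodule.iSup_induction' with
  | mem k x hx =>
    induction hv using Submodule.iSup_induction' with
    | mem l y hy => exact aslX_comm H A hx hy
    | zero => rw [mul_zero, zero_mul]
    | add y z _ _ hy hz => rw [mul_add, add_mul, hy, hz]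
  | zero => rw [mul_zero, zero_mul]
  | add y z _ _ hy hz => rw [mul_add, add_mul, hy, hz]

/-- Elements of the lifted algebra are sums of their homogeneous parts. -/
theorem aslA_sum (H : RFacts b R) (A : Subalgebra ℂ (MvPolynomial (Fin s ⊕ Fin q) ℂ))
    {u : UniversalEnvelopingAlgebra ℂ L} (hu : u ∈ aslA H A) :
    ∃ (N : ℕ) (g : ℕ → MvPolynomial (Fin s ⊕ Fin q) ℂ) (v : ℕ → UniversalEnvelopingAlgebra ℂ L),
      (∀ k, g k ∈ A ∧ (g k).IsHomogeneous k ∧ ∀ K, k ≤ K → R K k (g k) (v k)) ∧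
      (∀ k, N ≤ k → v k = 0) ∧ u = ∑ k ∈ Finset.range N, v k := by
  rw [mem_aslA] at hu
  induction hu using Submodule.iSup_induction' with
  | mem k x hx =>
    obtain ⟨g, h1, h2, h3⟩ := hx
    refine ⟨k + 1, fun j => if j = k then g else 0, fun j => if j = k then x else 0, fun j => ?_,
      fun j hj => ?_, ?_⟩
    · by_cases h : j = k
      · subst h
        simp only [if_true]
        exact ⟨h1, h2, h3⟩
      · simp only [h, if_false]
        exact ⟨A.zero_mem, isHomogeneous_zero _ _ _, fun K _ => H.zero0 K j⟩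
    · have : j ≠ k := by omega
      simp only [this, if_false]
    · rw [Finset.sum_ite_eq' (Finset.range (k + 1)) k (fun _ => x)]
      simp
  | zero =>
    exact ⟨0, fun _ => 0, fun _ => 0, fun k => ⟨A.zero_mem, isHomogeneous_zero _ _ _,
      fun K _ => H.zero0 K k⟩, fun _ _ => rfl, by simp⟩
  | add y z _ _ hy hz =>
    obtain ⟨N, g, v, h1, h2, h3⟩ := hy
    obtain ⟨N', g', v', h1', h2', h3'⟩ := hz
    refine ⟨N + N', fun k => g k + g' k, fun k => v k + v' k, fun k => ?_, fun k hk => ?_, ?_⟩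
    · exact ⟨A.add_mem (h1 k).1 (h1' k).1, (h1 k).2.1.add (h1' k).2.1, fun K hK =>
        H.add K k _ _ _ _ ((h1 k).2.2 K hK) ((h1' k).2.2 K hK)⟩
    · simp only
      rw [h2 k (by omega), h2' k (by omega), add_zero]
    · rw [Finset.sum_add_distrib, h3, h3']
      have e1 : ∀ (M M' : ℕ) (w : ℕ → UniversalEnvelopingAlgebra ℂ L), M ≤ M' →
          (∀ k, M ≤ k → w k = 0) →
          ∑ k ∈ Finset.range M, w k = ∑ k ∈ Finset.range M', w k := by
        intro M M' w hM hw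
        refine Finset.sum_subset (Finset.range_mono hM) fun k _ hk => hw k ?_
        simpa using hk
      rw [e1 N (N + N') v (by omega) h2, e1 N' (N + N') v' (by omega) h2']

end

/-- The quantisation of the algebra generated by a set of homogeneous polynomials. -/
theorem t_asl (hG : GSAStmt) : ASLStmt := by
  classical
  intro L _ _ _ s q b R S H hS
  obtain ⟨-, -, -, -, -, hlow, hup⟩ := t_sya L
  obtain ⟨A, hA⟩ : ∃ A : Subalgebra ℂ (MvPolynomial (Fin s ⊕ Fin q) ℂ),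
    A = Algebra.adjoin ℂ S := ⟨_, rfl⟩
  -- the homogeneous polynomials which have lifts
  let W : ℕ → Submodule ℂ (MvPolynomial (Fin s ⊕ Fin q) ℂ) := fun k =>
    { carrier := {g | g.IsHomogeneous k ∧ ∀ K, k ≤ K → ∃ u, R K k g u}
      zero_mem' := ⟨isHomogeneous_zero _ _ _, fun K _ => ⟨0, H.zero0 K k⟩⟩
      add_mem' := by
        rintro g g' ⟨h1, h2⟩ ⟨h1', h2'⟩
        refine ⟨h1.add h1', fun K hK => ?_⟩
        obtain ⟨u, hu⟩ := h2 K hK
        obtain ⟨u', hu'⟩ := h2' K hK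
        exact ⟨u + u', H.add K k _ _ _ _ hu hu'⟩
      smul_mem' := by
        rintro c g ⟨h1, h2⟩
        refine ⟨(homogeneousSubmodule (Fin s ⊕ Fin q) ℂ k).smul_mem c h1, fun K hK => ?_⟩
        obtain ⟨u, hu⟩ := h2 K hK
        exact ⟨c • u, H.smul K k c _ _ hu⟩ }
  have hW : ∀ k g, g ∈ W k ↔ g.IsHomogeneous k ∧ ∀ K, k ≤ K → ∃ u, R K k g u :=
    fun k g => Iff.rfl
  obtain ⟨g1, -⟩ := hG (Fin s ⊕ Fin q) S W
    (fun p hp => by
      obtain ⟨k, h1, h2, h3⟩ := hS p hp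
      exact ⟨k, h1, h2, h2, h3⟩)
    ⟨isHomogeneous_one _ _, fun K _ => ⟨1, H.one K⟩⟩
    (fun k p hp => hp.1)
    (fun k l p hp p' hp' => by
      refine ⟨hp.1.mul hp'.1, fun K hK => ?_⟩
      obtain ⟨u, hu⟩ := hp.2 K (by omega)
      obtain ⟨u', hu'⟩ := hp'.2 K (by omega)
      exact ⟨u * u', H.mul K k l _ _ _ _ hu hu'⟩)
  refine ⟨aslA H A, fun u hu v hv => aslA_comm H A hu hv, fun u hu hu0 => ?_,
    fun k G hG hk => ?_⟩
  · obtain ⟨N, g, v, h1, h2, h3⟩ := aslA_sum H A hu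
    have hv0 : ∀ k, g k = 0 → v k = 0 := fun k hk => by
      have h4 := (h1 k).2.2 k le_rfl
      rw [hk] at h4
      exact H.zero k k _ h4
    have hex : ∃ k, k < N ∧ g k ≠ 0 := by
      by_contra h
      push Not at h
      refine hu0 ?_
      rw [h3]
      exact Finset.sum_eq_zero fun k hk => hv0 k (h k (Finset.mem_range.1 hk))
    obtain ⟨k, hk, hmax⟩ : ∃ k, (k < N ∧ g k ≠ 0) ∧ ∀ j, k < j → j < N → g j = 0 := by
      obtain ⟨F, hF⟩ : ∃ F : Finset ℕ, F = (Finset.range N).filter fun k => g k ≠ 0 := ⟨_, rfl⟩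
      have hmem : ∀ k, k ∈ F ↔ k < N ∧ g k ≠ 0 := fun k => by
        rw [hF, Finset.mem_filter, Finset.mem_range]
      have hne : F.Nonempty := by
        obtain ⟨k, h4, h5⟩ := hex
        exact ⟨k, (hmem k).2 ⟨h4, h5⟩⟩
      refine ⟨F.max' hne, (hmem _).1 (F.max'_mem hne), fun j h6 h7 => ?_⟩
      by_contra h9
      exact absurd (F.le_max' j ((hmem j).2 ⟨h7, h9⟩)) (by omega)
    refine ⟨k, g k, ?_, hk.2, (h1 k).2.1, ?_⟩
    · rw [← hA]
      exact (h1 k).1
    · have e1 : u = v k + ∑ j ∈ (Finset.range N).erase k, v j := by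
        rw [h3, Finset.add_sum_erase _ _ (Finset.mem_range.2 hk.1)]
      rw [e1]
      refine hlow k k (v k) _ _ (H.sym k k (g k) (v k) ((h1 k).2.2 k le_rfl)) ?_ le_rfl
      refine Submodule.sum_mem _ fun j hj => ?_
      rw [Finset.mem_erase, Finset.mem_range] at hj
      rcases lt_or_gt_of_ne hj.1 with h4 | h4
      · exact hup j k (v j) _ (H.sym j j (g j) (v j) ((h1 j).2.2 j le_rfl)) h4
      · rw [hv0 j (hmax j h4 hj.2)]
        exact Submodule.zero_mem _
  · have h1 := g1 G hG k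
    rw [homogeneousComponent_of_mem hk, if_pos rfl] at h1
    obtain ⟨u, hu⟩ := asl_lift H h1.2
    refine ⟨u, ?_, H.sym k k G u (hu k le_rfl)⟩
    rw [mem_aslA]
    exact Submodule.mem_iSup_of_mem k ⟨G, by rw [hA]; exact hG, hk, hu⟩

end Pool.MFL
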