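import Pool.Agent.H51.MFL.S

/-!
# Board mfl: GSA
-/

set_option autoImplicit false

open Module MvPolynomial

namespace Pool.MFL

open Pool.MFQ Pool.MFM

/-- Homogeneous elements of an algebra generated by homogeneous elements. -/
theorem t_gsa : GSAStmt := by
  classical
  intro κ _ S W hS h1 hW hmul
  have key : ∀ p ∈ Algebra.adjoin ℂ S, ∀ n, homogeneousComponent n p ∈ W n ∧
      homogeneousComponent n p ∈ Algebra.adjoin ℂ S := by
    have hom : ∀ (k : ℕ) (p : MvPolynomial κ ℂ), p.IsHomogeneous k → p ∈ W k →
        p ∈ Algebra.adjoin ℂ S → ∀ n, homogeneousComponent n p ∈ W n ∧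
          homogeneousComponent n p ∈ Algebra.adjoin ℂ S := by
      intro k p hp hw ha n
      rw [homogeneousComponent_of_mem hp]
      split_ifs with h
      · subst h
        exact ⟨hw, ha⟩
      · exact ⟨(W n).zero_mem, Subalgebra.zero_mem _⟩
    intro p hp
    induction hp using Algebra.adjoin_induction with
    | mem p hp =>
      obtain ⟨k, -, hk, hw⟩ := hS p hp
      exact hom k p hk hw (Algebra.subset_adjoin hp)
    | algebraMap c =>
      have e1 : algebraMap ℂ (MvPolynomial κ ℂ) c = c • (1 : MvPolynomial κ ℂ) := by
        rw [Algebra.algebraMap_eq_smul_one]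
      rw [e1]
      refine hom 0 _ (hW 0 _ ((W 0).smul_mem c h1)) ((W 0).smul_mem c h1)
        (Subalgebra.smul_mem _ (Subalgebra.one_mem _) c)
    | add p q _ _ hp hq =>
      intro n
      rw [map_add]
      exact ⟨(W n).add_mem (hp n).1 (hq n).1, Subalgebra.add_mem _ (hp n).2 (hq n).2⟩
    | mul p q _ _ hp hq =>
      intro n
      have e1 : p * q = ∑ i ∈ Finset.range (p.totalDegree + 1),
          ∑ j ∈ Finset.range (q.totalDegree + 1),
            homogeneousComponent i p * homogeneousComponent j q := by
        rw [← Finset.sum_mul_sum, sum_homogeneousComponent, sum_homogeneousComponent]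
      rw [e1, map_sum]
      have h2 : ∀ i j, homogeneousComponent n
          (homogeneousComponent i p * homogeneousComponent j q) ∈ W n ∧
          homogeneousComponent n (homogeneousComponent i p * homogeneousComponent j q) ∈
            Algebra.adjoin ℂ S := fun i j =>
        hom (i + j) _ (hW _ _ (hmul i j _ (hp i).1 _ (hq j).1)) (hmul i j _ (hp i).1 _ (hq j).1)
          (Subalgebra.mul_mem _ (hp i).2 (hq j).2) n
      constructor
      · refine (W n).sum_mem fun i _ => ?_
        rw [map_sum]
        exact (W n).sum_mem fun j _ => (h2 i j).1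
      · refine Subalgebra.sum_mem _ fun i _ => ?_
        rw [map_sum]
        exact Subalgebra.sum_mem _ fun j _ => (h2 i j).2
  exact ⟨fun p hp n => (key p hp n).1, fun p hp n => (key p hp n).2⟩

end Pool.MFL
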